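import Pool.Agent.K3h88.VR.Stm

/-! Project VR (MP_bc06f7_co), brick SUB: the number of `d`-dimensional subspaces of `F_2^n`. -/

set_option autoImplicit false

namespace Pool.Agent.K3h4.VR

open Finset Pool.Agent.K3h88.VR

/-- the subspace is the span of a basis -/
lemma span_eq {n d : ℕ} (V : Submodule (ZMod 2) (E n)) (hV : Module.finrank (ZMod 2) V = d)
    (s : Fin d → V) (hs : LinearIndependent (ZMod 2) s) :
    Submodule.span (ZMod 2) (Set.range fun i => (s i : E n)) = V := by
  have h1 : Submodule.span (ZMod 2) (Set.range s) = ⊤ :=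
    hs.span_eq_top_of_card_eq_finrank' (by rw [Fintype.card_fin, hV])
  have h2 := congrArg (Submodule.map V.subtype) h1
  rw [Submodule.map_span, Submodule.map_top, Submodule.range_subtype, ← Set.range_comp] at h2
  exact h2

/-- the number of bases is at least `(2 ^ (d - 1)) ^ d` -/
lemma card_bases {n d : ℕ} (V : Submodule (ZMod 2) (E n)) (hV : Module.finrank (ZMod 2) V = d) :
    2 ^ ((d - 1) * d) ≤ Nat.card {s : Fin d → V // LinearIndependent (ZMod 2) s} := by
  rw [card_linearIndependent (by rw [hV]), hV]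
  have h1 : ∏ _i : Fin d, 2 ^ (d - 1) ≤
      ∏ i : Fin d, (Fintype.card (ZMod 2) ^ d - Fintype.card (ZMod 2) ^ (i : ℕ)) := by
    refine prod_le_prod' fun i _ => ?_
    rw [ZMod.card]
    have hi := i.isLt
    have h2 : 2 ^ (i : ℕ) ≤ 2 ^ (d - 1) := Nat.pow_le_pow_right (by norm_num) (by omega)
    have h3 : 2 ^ d = 2 ^ (d - 1) + 2 ^ (d - 1) := by
      rw [← two_mul, ← pow_succ']
      congr 1
      omega
    omega
  rw [prod_const, card_univ, Fintype.card_fin, ← pow_mul] at h1
  exact h1

/-- Brick SUB -/
theorem t_SUB : S_SUB := by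
  intro n d
  classical
  by_cases hdn : d ≤ n
  · obtain ⟨f, hf⟩ : ∃ f : (Σ V : {V : Submodule (ZMod 2) (E n) // Module.finrank (ZMod 2) V = d},
        {s : Fin d → V.1 // LinearIndependent (ZMod 2) s}) → (Fin d → E n),
        f = fun p i => ((p.2.1 i : p.1.1) : E n) := ⟨_, rfl⟩
    have hinj : Function.Injective f := by
      rintro ⟨⟨V, hV⟩, ⟨s, hs⟩⟩ ⟨⟨V', hV'⟩, ⟨s', hs'⟩⟩ h
      rw [hf] at h
      have h' : (fun i => ((s i : V) : E n)) = fun i => ((s' i : V') : E n) := h
      have hVV : V = V' := by
        rw [← span_eq V hV s hs, ← span_eq V' hV' s' hs', h']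
      subst hVV
      have hss : s = s' := funext fun i => Subtype.ext (congrFun h' i)
      subst hss
      rfl
    have h1 := Nat.card_le_card_of_injective f hinj
    have h2 : Nat.card {V : Submodule (ZMod 2) (E n) // Module.finrank (ZMod 2) V = d} *
        2 ^ ((d - 1) * d) ≤ Nat.card (Fin d → E n) := by
      refine le_trans ?_ h1
      have : Fintype {V : Submodule (ZMod 2) (E n) // Module.finrank (ZMod 2) V = d} :=
        Fintype.ofFinite _
      rw [Nat.card_sigma]
      calc _ = ∑ _V : {V : Submodule (ZMod 2) (E n) // Module.finrank (ZMod 2) V = d},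
            2 ^ ((d - 1) * d) := by
            rw [sum_const, card_univ, smul_eq_mul, Nat.card_eq_fintype_card]
        _ ≤ _ := sum_le_sum fun V _ => card_bases V.1 V.2
    have h3 : Nat.card (Fin d → E n) = 2 ^ (n * d) := by
      rw [Nat.card_eq_fintype_card]
      simp [pow_mul]
    rw [h3] at h2
    have h4 : n * d = (d * (n - d) + d) + (d - 1) * d := by
      obtain ⟨k, rfl⟩ := Nat.exists_eq_add_of_le hdn
      rcases Nat.eq_zero_or_pos d with h0 | h0
      · subst h0
        simp
      · obtain ⟨j, rfl⟩ : ∃ j, d = j + 1 := ⟨d - 1, by omega⟩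
        rw [Nat.add_sub_cancel_left, Nat.add_sub_cancel]
        ring
    rw [h4, pow_add _ (d * (n - d) + d)] at h2
    have h5 := Nat.le_of_mul_le_mul_right h2 (by positivity)
    exact h5.trans (Nat.pow_le_pow_right (by norm_num) (by omega))
  · have hempty : IsEmpty {V : Submodule (ZMod 2) (E n) // Module.finrank (ZMod 2) V = d} := by
      refine ⟨fun V => ?_⟩
      have h1 := Submodule.finrank_le V.1
      rw [V.2] at h1
      simp only [Module.finrank_fintype_fun_eq_card, Fintype.card_fin] at h1
      exact hdn h1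
    rw [Nat.card_of_isEmpty]
    exact Nat.zero_le _

end Pool.Agent.K3h4.VR
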